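import Pool.Agent.W593.IR.Stm

/-!
Uniform form of the asymptotic bound for the Erdős matching problem on a compact range.
-/

set_option autoImplicit false

namespace Pool.Agent.W664.IR

open Finset Pool.Agent.W890.SF Pool.Agent.W593.IR Filter Topology

theorem hasM_le {α : Type} {F : Finset (Finset α)} {s t : ℕ} (h : HasM F t) (hst : s ≤ t) :
    HasM F s := by
  obtain ⟨M, hM, hd, hc⟩ := h
  obtain ⟨M', hM', hc'⟩ := Finset.exists_subset_card_eq (s := M) (n := s) (by omega)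
  exact ⟨M', hM'.trans hM, fun a ha b hb => hd a (hM' ha) b (hM' hb), hc'⟩

theorem mv_cont (k : ℕ) : Continuous (mv k) := by
  unfold mv
  fun_prop

theorem card_le (n k : ℕ) (F : Finset (Finset (Fin n))) (hF : Unif k F) :
    F.card ≤ n.choose k := by
  have h : F ⊆ Finset.powersetCard k (Finset.univ : Finset (Fin n)) := by
    intro e he
    rw [Finset.mem_powersetCard]
    exact ⟨Finset.subset_univ _, hF e he⟩
  have := Finset.card_le_card h
  rwa [Finset.card_powersetCard, Finset.card_univ, Fintype.card_fin] at this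

theorem desc1 (n s : ℕ) (hs : s ≤ n) (hn : 0 < n) (k : ℕ) :
    (((n - s).descFactorial k : ℕ) : ℝ) ≤
      (1 - (s : ℝ) / n) ^ k * ((n.descFactorial k : ℕ) : ℝ) := by
  have hn' : (0 : ℝ) < n := by exact_mod_cast hn
  have hs' : (s : ℝ) ≤ n := by exact_mod_cast hs
  have h0 : 0 ≤ 1 - (s : ℝ) / n := by
    rw [sub_nonneg, div_le_one hn']
    exact hs'
  induction k with
  | zero => simp
  | succ k ih =>
    rw [Nat.descFactorial_succ, Nat.descFactorial_succ, pow_succ]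
    push_cast
    have h1 : (((n - s - k : ℕ)) : ℝ) ≤ (1 - (s : ℝ) / n) * ((n - k : ℕ) : ℝ) := by
      rcases le_or_gt (s + k) n with h | h
      · have e1 : (((n - s - k : ℕ)) : ℝ) = (n : ℝ) - s - k := by
          rw [Nat.sub_sub, Nat.cast_sub h]
          push_cast
          ring
        have e2 : ((n - k : ℕ) : ℝ) = (n : ℝ) - k := by
          rw [Nat.cast_sub (by omega)]
        rw [e1, e2]
        have e3 : (1 - (s : ℝ) / n) * ((n : ℝ) - k) = (n : ℝ) - s - k + s * k / n := by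
          field_simp
          ring
        rw [e3]
        have : (0 : ℝ) ≤ s * k / n := by positivity
        linarith
      · have e1 : n - s - k = 0 := by omega
        rw [e1]
        push_cast
        positivity
    calc (((n - s - k : ℕ)) : ℝ) * (((n - s).descFactorial k : ℕ) : ℝ)
        ≤ ((1 - (s : ℝ) / n) * ((n - k : ℕ) : ℝ)) *
          ((1 - (s : ℝ) / n) ^ k * ((n.descFactorial k : ℕ) : ℝ)) := by
          apply mul_le_mul h1 ih (by positivity) (by positivity)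
      _ = _ := by ring

theorem low1 (n s k : ℕ) (hs : s ≤ n) (hn : 0 < n) :
    (1 - (1 - (s : ℝ) / n) ^ k) * ((n.choose k : ℕ) : ℝ) ≤
      ((n.choose k : ℕ) : ℝ) - (((n - s).choose k : ℕ) : ℝ) := by
  have h := desc1 n s hs hn k
  rw [Nat.descFactorial_eq_factorial_mul_choose, Nat.descFactorial_eq_factorial_mul_choose] at h
  push_cast at h
  have hf : (0 : ℝ) < (k.factorial : ℝ) := by exact_mod_cast Nat.factorial_pos k
  have h2 : (((n - s).choose k : ℕ) : ℝ) ≤ (1 - (s : ℝ) / n) ^ k * ((n.choose k : ℕ) : ℝ) := by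
    have : (k.factorial : ℝ) * (((n - s).choose k : ℕ) : ℝ) ≤
        (k.factorial : ℝ) * ((1 - (s : ℝ) / n) ^ k * ((n.choose k : ℕ) : ℝ)) := by
      calc _ ≤ _ := h
        _ = _ := by ring
    exact le_of_mul_le_mul_left this hf
  linarith

theorem low2 (n s k : ℕ) (hn : 0 < n) (hk : 1 ≤ k) :
    ((k : ℝ) * ((s : ℝ) / n)) ^ k * ((n.choose k : ℕ) : ℝ) ≤
      (((k * (s + 1) - 1).choose k : ℕ) : ℝ) := by
  have hn' : (0 : ℝ) < n := by exact_mod_cast hn
  have hf : (0 : ℝ) < (k.factorial : ℝ) := by exact_mod_cast Nat.factorial_pos k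
  have h1 : (k * s) ^ k ≤ (k * (s + 1) - 1).descFactorial k := by
    have h := Nat.pow_sub_le_descFactorial (k * (s + 1) - 1) k
    have e : k * (s + 1) - 1 + 1 - k = k * s := by
      rw [Nat.mul_succ]
      omega
    rwa [e] at h
  have h2 : n.descFactorial k ≤ n ^ k := Nat.descFactorial_le_pow n k
  rw [Nat.descFactorial_eq_factorial_mul_choose] at h1 h2
  have h1' : ((k : ℝ) * s) ^ k ≤ (k.factorial : ℝ) * (((k * (s + 1) - 1).choose k : ℕ) : ℝ) := by
    exact_mod_cast h1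
  have h2' : (k.factorial : ℝ) * ((n.choose k : ℕ) : ℝ) ≤ (n : ℝ) ^ k := by exact_mod_cast h2
  refine le_of_mul_le_mul_left ?_ hf
  calc (k.factorial : ℝ) * (((k : ℝ) * ((s : ℝ) / n)) ^ k * ((n.choose k : ℕ) : ℝ))
      = ((k : ℝ) * ((s : ℝ) / n)) ^ k * ((k.factorial : ℝ) * ((n.choose k : ℕ) : ℝ)) := by ring
    _ ≤ ((k : ℝ) * ((s : ℝ) / n)) ^ k * (n : ℝ) ^ k :=
        mul_le_mul_of_nonneg_left h2' (by positivity)
    _ = ((k : ℝ) * s) ^ k := by
        rw [← mul_pow]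
        congr 1
        field_simp
    _ ≤ _ := h1'

theorem low (n s k : ℕ) (hs : s ≤ n) (hn : 0 < n) (hk : 1 ≤ k) :
    mv k ((s : ℝ) / n) * ((n.choose k : ℕ) : ℝ) ≤
      max (((n.choose k : ℕ) : ℝ) - (((n - s).choose k : ℕ) : ℝ))
      (((k * (s + 1) - 1).choose k : ℕ) : ℝ) := by
  unfold mv
  rw [max_mul_of_nonneg _ _ (by positivity)]
  exact max_le_max (low1 n s k hs hn) (low2 n s k hn hk)

theorem uni (k : ℕ) (α β : ℝ) (hk : 2 ≤ k) (hα : 0 < α) (hβ : β ≤ 1 / (k : ℝ))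
    (h : ∀ x : ℝ, α ≤ x → x ≤ β → x = 1 / (k : ℝ) ∨ ((k : ℝ) * x < 1 ∧ UBS k x))
    (ε : ℝ) (hε : 0 < ε) : ∃ n0 : ℕ, ∀ n : ℕ, n0 ≤ n → ∀ s : ℕ, α * n ≤ s → (s : ℝ) ≤ β * n →
    ∀ F : Finset (Finset (Fin n)), Unif k F → ¬ HasM F (s + 1) →
    (F.card : ℝ) ≤ (1 + ε) * max (((n.choose k : ℕ) : ℝ) - (((n - s).choose k : ℕ) : ℝ))
      (((k * (s + 1) - 1).choose k : ℕ) : ℝ) := by
  have hk0 : (0 : ℝ) < k := by exact_mod_cast (by omega : 0 < k)
  obtain ⟨c0, hc0⟩ : ∃ c0 : ℝ, c0 = ((k : ℝ) * α) ^ k := ⟨_, rfl⟩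
  have hc0p : 0 < c0 := by rw [hc0]; positivity
  obtain ⟨d, hd⟩ : ∃ d : ℝ, d = ε * c0 / 2 := ⟨_, rfl⟩
  have hdp : 0 < d := by rw [hd]; positivity
  have key : ∃ n0 : ℕ, ∀ n : ℕ, n0 ≤ n → ∀ s : ℕ, (s : ℝ) / n ∈ Set.Icc α β →
      ∀ F : Finset (Finset (Fin n)), Unif k F → ¬ HasM F (s + 1) →
        (F.card : ℝ) ≤ (mv k ((s : ℝ) / n) + 2 * d) * ((n.choose k : ℕ) : ℝ) := by
    refine IsCompact.induction_on (isCompact_Icc : IsCompact (Set.Icc α β))
      (p := fun S => ∃ n0 : ℕ, ∀ n : ℕ, n0 ≤ n → ∀ s : ℕ, (s : ℝ) / n ∈ S →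
      ∀ F : Finset (Finset (Fin n)), Unif k F → ¬ HasM F (s + 1) →
        (F.card : ℝ) ≤ (mv k ((s : ℝ) / n) + 2 * d) * ((n.choose k : ℕ) : ℝ)) ?_ ?_ ?_ ?_
    · exact ⟨0, fun n _ s hs => absurd hs (Set.notMem_empty _)⟩
    · rintro S T hST ⟨n0, h0⟩
      exact ⟨n0, fun n hn s hs => h0 n hn s (hST hs)⟩
    · rintro S T ⟨n0, h0⟩ ⟨n1, h1⟩
      refine ⟨max n0 n1, fun n hn s hs => ?_⟩
      rcases hs with hs | hs
      · exact h0 n (le_trans (le_max_left _ _) hn) s hs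
      · exact h1 n (le_trans (le_max_right _ _) hn) s hs
    · intro x hx
      have hmv : ∀ᶠ y in 𝓝 x, |mv k y - mv k x| < d := by
        have := (mv_cont k).continuousAt (x := x)
        exact (Metric.tendsto_nhds.mp this d hdp)
      rcases h x hx.1 hx.2 with hx1 | ⟨hx1, hU⟩
      · refine ⟨_, mem_nhdsWithin_of_mem_nhds hmv, 0, ?_⟩
        intro n _ s hs F hF _
        have hs' : |mv k ((s : ℝ) / n) - mv k x| < d := hs
        have h1 : 1 ≤ mv k x := by
          unfold mv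
          refine le_trans ?_ (le_max_right _ _)
          rw [hx1, mul_one_div_cancel hk0.ne', one_pow]
        have h2 : 1 ≤ mv k ((s : ℝ) / n) + 2 * d := by
          have := (abs_lt.mp hs').1
          linarith
        have h3 : (F.card : ℝ) ≤ ((n.choose k : ℕ) : ℝ) := by exact_mod_cast card_le n k F hF
        have h4 : (0 : ℝ) ≤ ((n.choose k : ℕ) : ℝ) := by positivity
        nlinarith
      · obtain ⟨η, hη, n1, hn1⟩ := hU d hdp
        have hy : ∀ᶠ y in 𝓝 x, y < x + η / 2 := eventually_lt_nhds (by linarith)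
        refine ⟨_, mem_nhdsWithin_of_mem_nhds (hmv.and hy), max n1 (⌈2 / η⌉₊ + 1), ?_⟩
        intro n hn s hs F hF hM
        have hs' : |mv k ((s : ℝ) / n) - mv k x| < d := hs.1
        have hs2 : (s : ℝ) / n < x + η / 2 := hs.2
        have hn2 : ⌈2 / η⌉₊ + 1 ≤ n := le_trans (le_max_right _ _) hn
        have hn3 : 2 / η ≤ n := by
          refine le_trans (Nat.le_ceil _) ?_
          exact_mod_cast (by omega : ⌈2 / η⌉₊ ≤ n)
        have hnp : (0 : ℝ) < n := by exact_mod_cast (by omega : 0 < n)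
        have h5 : (s : ℝ) < (x + η / 2) * n := by rwa [div_lt_iff₀ hnp] at hs2
        have h6 : 2 ≤ (n : ℝ) * η := by rwa [div_le_iff₀ hη] at hn3
        have h7 : (((s + 1 : ℕ)) : ℝ) ≤ (x + η) * n := by
          push_cast
          nlinarith
        have h8 : s + 1 ≤ ⌊(x + η) * n⌋₊ := Nat.le_floor h7
        have h9 : ¬ (mv k x + d) * ((n.choose k : ℕ) : ℝ) ≤ (F.card : ℝ) := fun hc =>
          hM (hasM_le (hn1 n (le_trans (le_max_left _ _) hn) F hF hc) h8)
        have h10 := not_le.mp h9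
        have h11 := (abs_lt.mp hs').1
        have h4 : (0 : ℝ) ≤ ((n.choose k : ℕ) : ℝ) := by positivity
        refine h10.le.trans (mul_le_mul_of_nonneg_right (by linarith) h4)
  obtain ⟨n0, h0⟩ := key
  refine ⟨max n0 1, ?_⟩
  intro n hn s hs1 hs2 F hF hM
  have hn1 : 0 < n := lt_of_lt_of_le one_pos (le_trans (le_max_right _ _) hn)
  have hnp : (0 : ℝ) < n := by exact_mod_cast hn1
  have hx1 : α ≤ (s : ℝ) / n := by rwa [le_div_iff₀ hnp]
  have hx2 : (s : ℝ) / n ≤ β := by rwa [div_le_iff₀ hnp]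
  have h1 := h0 n (le_trans (le_max_left _ _) hn) s ⟨hx1, hx2⟩ F hF hM
  have hsn : s ≤ n := by
    have hb : (s : ℝ) ≤ n := by
      have h2 : β ≤ 1 := hβ.trans (by
        rw [div_le_one hk0]
        exact_mod_cast (by omega : 1 ≤ k))
      nlinarith
    exact_mod_cast hb
  have h2 := low n s k hsn hn1 (by omega)
  have h3 : c0 ≤ mv k ((s : ℝ) / n) := by
    rw [hc0]
    unfold mv
    refine le_trans ?_ (le_max_right _ _)
    exact pow_le_pow_left₀ (by positivity) (mul_le_mul_of_nonneg_left hx1 hk0.le) k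
  have h4 : (0 : ℝ) ≤ ((n.choose k : ℕ) : ℝ) := by positivity
  have h5 : mv k ((s : ℝ) / n) + 2 * d ≤ (1 + ε) * mv k ((s : ℝ) / n) := by
    rw [hd]
    nlinarith
  calc (F.card : ℝ) ≤ (mv k ((s : ℝ) / n) + 2 * d) * ((n.choose k : ℕ) : ℝ) := h1
    _ ≤ (1 + ε) * mv k ((s : ℝ) / n) * ((n.choose k : ℕ) : ℝ) :=
        mul_le_mul_of_nonneg_right h5 h4
    _ = (1 + ε) * (mv k ((s : ℝ) / n) * ((n.choose k : ℕ) : ℝ)) := by ring
    _ ≤ _ := mul_le_mul_of_nonneg_left h2 (by positivity)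

end Pool.Agent.W664.IR
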